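import Mathlib

/-!
Gonality of the hypercube: edge isoperimetry and the bound for divisors all of whose zeros lie in
small closed sets.
-/

set_option autoImplicit false

namespace Pool.Agent.H376Z.Gon

open Classical

abbrev V (n : ℕ) : Type := Fin n → Bool

def flp {n : ℕ} (x : V n) (i : Fin n) : V n := Function.update x i (!(x i))

def cns {n : ℕ} (b : Bool) (x : V n) : V (n + 1) := Fin.cons b x

theorem flp_flp {n : ℕ} (x : V n) (i : Fin n) : flp (flp x i) i = x := by
  simp [flp]

theorem flp_zero {n : ℕ} (b : Bool) (x : V n) : flp (cns b x) 0 = cns (!b) x := by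
  simp [flp, cns]

theorem flp_succ {n : ℕ} (b : Bool) (x : V n) (i : Fin n) :
    flp (cns b x) i.succ = cns b (flp x i) := by
  simp [flp, cns, Fin.cons_update]

theorem sum_succ {n : ℕ} {M : Type} [AddCommMonoid M] (g : V (n + 1) → M) :
    ∑ x, g x = ∑ x, g (cns false x) + ∑ x, g (cns true x) := by
  rw [← (Fin.consEquiv (fun _ => Bool)).sum_comp, Fintype.sum_prod_type, Fintype.sum_bool,
    add_comm]
  rfl

theorem sum_flp {n : ℕ} {M : Type} [AddCommMonoid M] (g : V n → M) (i : Fin n) :
    ∑ x, g (flp x i) = ∑ x, g x :=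
  Equiv.sum_comp (Function.Involutive.toPerm (fun x => flp x i) (fun x => flp_flp x i)) g

noncomputable def deg {n : ℕ} (W : V n → Prop) (y : V n) : ℕ := ∑ i, if W (flp y i) then 1 else 0

noncomputable def cut {n : ℕ} (W : V n → Prop) : ℕ := ∑ y, if W y then 0 else deg W y

noncomputable def size {n : ℕ} (W : V n → Prop) : ℕ := ∑ y, if W y then 1 else 0

theorem deg_succ {n : ℕ} (W : V (n + 1) → Prop) (b : Bool) (y : V n) :
    deg W (cns b y) = (if W (cns (!b) y) then 1 else 0) + deg (fun x => W (cns b x)) y := by
  simp only [deg, Fin.sum_univ_succ, flp_zero, flp_succ]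

theorem size_succ {n : ℕ} (W : V (n + 1) → Prop) :
    size W = size (fun x => W (cns false x)) + size (fun x => W (cns true x)) := by
  simp only [size]
  exact sum_succ _

theorem cut_succ {n : ℕ} (W : V (n + 1) → Prop) (b : Bool) :
    cut (fun x => W (cns false x)) + cut (fun x => W (cns true x)) +
      size (fun x => W (cns b x)) ≤ cut W + size (fun x => W (cns (!b) x)) := by
  simp only [cut, size]
  rw [sum_succ (fun y => if W y then 0 else deg W y)]
  simp only [← Finset.sum_add_distrib]
  apply Finset.sum_le_sum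
  intro x _
  rw [deg_succ, deg_succ]
  cases b <;> by_cases h0 : W (cns false x) <;> by_cases h1 : W (cns true x) <;>
    simp [h0, h1] <;> omega

theorem size_compl {n : ℕ} (W : V n → Prop) : size W + size (fun x => ¬ W x) = 2 ^ n := by
  simp only [size, ← Finset.sum_add_distrib]
  have : ∀ x : V n, ((if W x then 1 else 0) + if ¬ W x then 1 else 0) = 1 := by
    intro x; by_cases h : W x <;> simp [h]
  rw [Finset.sum_congr rfl fun x _ => by convert this x]
  simp

theorem size_pos {n : ℕ} (W : V n → Prop) (v : V n) (h : W v) : 1 ≤ size W := by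
  have := Finset.single_le_sum (f := fun y => if W y then 1 else 0) (fun _ _ => Nat.zero_le _)
    (Finset.mem_univ v)
  simp only [if_pos h] at this
  exact this

theorem iso (n : ℕ) (W : V n → Prop) :
    4 * size W ≤ 2 * cut W ∨ 2 ^ n ≤ 2 * cut W ∨ 4 * 2 ^ n ≤ 2 * cut W + 4 * size W := by
  induction n with
  | zero =>
    have := size_compl W
    simp only [pow_zero] at this ⊢
    omega
  | succ n ih =>
    have h0 := ih (fun x => W (cns false x))
    have h1 := ih (fun x => W (cns true x))
    have c0 := cut_succ W false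
    have c1 := cut_succ W true
    have s0 := size_compl (fun x => W (cns false x))
    have s1 := size_compl (fun x => W (cns true x))
    simp only [Bool.not_false, Bool.not_true] at c0 c1
    rw [size_succ W, pow_succ]
    omega

def Closed {n : ℕ} (D : V n → ℕ) (W : V n → Prop) : Prop := ∀ y, ¬ W y → deg W y ≤ D y

theorem Closed.cut_le {n : ℕ} {D : V n → ℕ} {W : V n → Prop} (h : Closed D W) :
    cut W ≤ ∑ y, D y := by
  apply Finset.sum_le_sum
  intro y _
  split_ifs with hy
  · exact Nat.zero_le _
  · exact h y hy

theorem first_step (n : ℕ) (D : V n → ℕ)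
    (h : ∀ v, D v = 0 → ∃ W, W v ∧ Closed D W ∧ 2 * size W ≤ 2 ^ n) : 2 ^ n ≤ 2 * ∑ y, D y := by
  induction n with
  | zero =>
    have hv : D default ≠ 0 := by
      intro h0
      obtain ⟨W, h1, _, h3⟩ := h _ h0
      have := size_pos W _ h1
      omega
    have := Finset.single_le_sum (f := D) (fun _ _ => Nat.zero_le _) (Finset.mem_univ default)
    omega
  | succ n ih =>
    by_cases hc : ∃ W, Closed D W ∧ 2 * size W ≤ 2 ^ (n + 1) ∧ 2 ^ (n + 1) ≤ 4 * size W
    · obtain ⟨W, h1, h2, h3⟩ := hc
      have := iso _ W
      have := h1.cut_le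
      omega
    · push Not at hc
      have key : ∀ b, 2 ^ n ≤ 2 * ∑ y, D (cns b y) := by
        intro b
        apply ih
        intro v hv
        obtain ⟨W, h1, h2, h3⟩ := h _ hv
        refine ⟨fun x => W (cns b x), h1, fun y hy => ?_, ?_⟩
        · have := h2 _ hy
          rw [deg_succ] at this
          show _ ≤ D (cns b y)
          omega
        · have := hc W h2 h3
          rw [size_succ, pow_succ] at this
          cases b <;> omega
      have h0 := key false
      have h1 := key true
      rw [sum_succ, pow_succ]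
      omega

/-- the Laplacian -/
def lap {n : ℕ} (f : V n → ℤ) (w : V n) : ℤ := ∑ i, (f w - f (flp w i))

theorem lap_eq {n : ℕ} (f : V n → ℤ) (w : V n) :
    (n : ℤ) * f w - ∑ i, f (flp w i) = lap f w := by
  simp [lap, Finset.sum_sub_distrib]

theorem sum_lap {n : ℕ} (f : V n → ℤ) : ∑ w, lap f w = 0 := by
  simp only [lap]
  rw [Finset.sum_comm]
  apply Finset.sum_eq_zero
  intro i _
  rw [Finset.sum_sub_distrib, sum_flp, sub_self]

theorem lap_add {n : ℕ} (f g : V n → ℤ) (w : V n) :
    lap (fun x => f x + g x) w = lap f w + lap g w := by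
  simp only [lap, ← Finset.sum_add_distrib]
  exact Finset.sum_congr rfl fun i _ => by ring

theorem lap_sub {n : ℕ} (f g : V n → ℤ) (w : V n) :
    lap (fun x => f x - g x) w = lap f w - lap g w := by
  simp only [lap, ← Finset.sum_sub_distrib]
  exact Finset.sum_congr rfl fun i _ => by ring

theorem green {n : ℕ} (h f : V n → ℤ) :
    ∑ i, ∑ w, (h w - h (flp w i)) * (f w - f (flp w i)) = 2 * ∑ w, h w * lap f w := by
  simp only [lap, Finset.mul_sum]
  rw [Finset.sum_comm (s := (Finset.univ : Finset (V n)))]
  apply Finset.sum_congr rfl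
  intro i _
  have := sum_flp (fun w => h w * (f w - f (flp w i))) i
  simp only [flp_flp] at this
  have e : ∑ w, 2 * (h w * (f w - f (flp w i))) = ∑ w, h w * (f w - f (flp w i)) +
      ∑ w, h (flp w i) * (f (flp w i) - f w) := by
    rw [this, ← Finset.sum_add_distrib]
    exact Finset.sum_congr rfl fun w _ => by ring
  rw [e, ← Finset.sum_add_distrib]
  exact Finset.sum_congr rfl fun w _ => by ring

theorem edge_bound {n : ℕ} (D : V n → ℕ) (f : V n → ℤ) (hf : ∀ w, lap f w ≤ D w) (x : V n)
    (j : Fin n) : f x ≤ f (flp x j) + 2 * ∑ w, (D w : ℤ) := by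
  have hD : 0 ≤ ∑ w, (D w : ℤ) := Finset.sum_nonneg fun w _ => Int.natCast_nonneg _
  by_cases hx : f x ≤ f (flp x j)
  · linarith
  let h : V n → ℤ := fun w => if f x ≤ f w then 1 else 0
  have nn : ∀ i w, 0 ≤ (h w - h (flp w i)) * (f w - f (flp w i)) := by
    intro i w
    simp only [h]
    split_ifs <;> simp <;> omega
  have h1 := Finset.single_le_sum (f := fun w => (h w - h (flp w j)) * (f w - f (flp w j)))
    (fun w _ => nn j w) (Finset.mem_univ x)
  have h2 := Finset.single_le_sum
    (f := fun i => ∑ w, (h w - h (flp w i)) * (f w - f (flp w i)))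
    (fun i _ => Finset.sum_nonneg fun w _ => nn i w) (Finset.mem_univ j)
  rw [green] at h2
  have h3 : ∑ w, h w * lap f w ≤ ∑ w, (D w : ℤ) := by
    apply Finset.sum_le_sum
    intro w _
    simp only [h]
    split_ifs
    · simpa using hf w
    · simp
  have h4 : (h x - h (flp x j)) * (f x - f (flp x j)) = f x - f (flp x j) := by
    simp [h, hx]
  linarith

theorem path_bound (n : ℕ) (f : V n → ℤ) (c : ℤ) (hc : 0 ≤ c)
    (h : ∀ x i, f x ≤ f (flp x i) + c) (x y : V n) : f x ≤ f y + c * n := by
  induction n with
  | zero => rw [Subsingleton.elim x y]; simp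
  | succ n ih =>
    have hx : x = cns (x 0) (Fin.tail x) := (Fin.cons_self_tail x).symm
    have hy : y = cns (y 0) (Fin.tail y) := (Fin.cons_self_tail y).symm
    have h1 := ih (fun z => f (cns (y 0) z)) (fun z i => by
      have := h (cns (y 0) z) i.succ
      rwa [flp_succ] at this) (Fin.tail x) (Fin.tail y)
    have h2 : f (cns (x 0) (Fin.tail x)) ≤ f (cns (y 0) (Fin.tail x)) + c := by
      by_cases e : x 0 = y 0
      · rw [e]; linarith
      · have := h (cns (x 0) (Fin.tail x)) 0
        rw [flp_zero] at this
        have e' : (!x 0) = y 0 := by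
          revert e; cases x 0 <;> cases y 0 <;> simp
        rwa [e'] at this
    rw [hx, hy]
    simp only [← hy] at h1 ⊢
    push_cast
    linarith

theorem sum_toNat {n : ℕ} (D : V n → ℕ) (f : V n → ℤ) (hf : ∀ w, lap f w ≤ D w) :
    ∑ w, ((D w : ℤ) - lap f w).toNat = ∑ w, D w := by
  have : ((∑ w, ((D w : ℤ) - lap f w).toNat : ℕ) : ℤ) = ((∑ w, D w : ℕ) : ℤ) := by
    push_cast
    rw [Finset.sum_congr rfl fun w _ => Int.toNat_of_nonneg (sub_nonneg.mpr (hf w)),
      Finset.sum_sub_distrib, sum_lap, sub_zero]
  exact_mod_cast this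

theorem deg_cast {n : ℕ} (W : V n → Prop) (y : V n) :
    (deg W y : ℤ) = ∑ i, if W (flp y i) then (1 : ℤ) else 0 := by
  simp only [deg]
  push_cast
  rfl

theorem size_mono {n : ℕ} {A B C : V n → Prop} (h : ∀ x, A x → B x ∨ C x) :
    size A ≤ size B + size C := by
  simp only [size, ← Finset.sum_add_distrib]
  apply Finset.sum_le_sum
  intro x _
  by_cases hA : A x
  · rcases h x hA with h1 | h1 <;> simp [hA, h1]
  · simp [hA]

theorem lower (n : ℕ) (D : V n → ℕ)
    (hr : ∀ v, ∃ g : V n → ℤ, ∀ w, 0 ≤ (D w : ℤ) - (if w = v then 1 else 0) - lap g w) :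
    2 ^ n ≤ 2 * ∑ y, D y := by
  by_contra hlt
  push Not at hlt
  let F : (V n → ℤ) → Prop := fun f =>
    (∀ w, 0 ≤ f w) ∧ (∀ w, lap f w ≤ D w) ∧ 4 * size (fun w => 0 < f w) < 2 ^ n
  have hD : 0 ≤ ∑ w, (D w : ℤ) := Finset.sum_nonneg fun w _ => Int.natCast_nonneg _
  obtain ⟨s, ⟨f, hf, rfl⟩, hmax⟩ := Int.exists_greatest_of_bdd
    (P := fun s => ∃ f, F f ∧ ∑ w, f w = s)
    ⟨∑ _w : V n, (2 * ∑ w, (D w : ℤ)) * n, by
      rintro s ⟨f, ⟨h1, h2, h3⟩, rfl⟩
      obtain ⟨y, hy⟩ : ∃ y, ¬ 0 < f y := by
        by_contra hc
        push Not at hc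
        have h4 := size_compl (fun w => 0 < f w)
        have h5 : size (fun w => ¬ 0 < f w) = 0 := by simp [size, hc]
        omega
      apply Finset.sum_le_sum
      intro x _
      have := path_bound n f _ (by linarith) (edge_bound D f h2) x y
      linarith⟩
    ⟨0, fun _ => 0, ⟨fun _ => le_rfl, fun w => by simp [lap], by simp [size]⟩, by simp⟩
  obtain ⟨h1, h2, h3⟩ := hf
  have := first_step n (fun w => ((D w : ℤ) - lap f w).toNat) (by
    intro v hv
    obtain ⟨g, hg⟩ := hr v
    obtain ⟨u, _, hu⟩ := Finset.exists_max_image Finset.univ (fun w => g w - f w) ⟨v, by simp⟩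
    have hu' : ∀ w, g w - f w ≤ g u - f u := fun w => hu w (Finset.mem_univ w)
    have hdeg : ∀ y, ¬ (g y - f y < g u - f u) →
        (deg (fun w => g w - f w < g u - f u) y : ℤ) ≤ lap g y - lap f y := by
      intro y hy
      rw [← lap_sub, deg_cast]
      apply Finset.sum_le_sum
      intro i _
      have := hu' (flp y i)
      show _ ≤ g y - f y - (g (flp y i) - f (flp y i))
      split_ifs <;> omega
    have hcl : Closed (fun w => ((D w : ℤ) - lap f w).toNat)
        (fun w => g w - f w < g u - f u) := by
      intro y hy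
      have a1 := hdeg y hy
      have a2 := hg y
      have a3 : (0 : ℤ) ≤ if y = v then 1 else 0 := by split_ifs <;> simp
      simp only
      omega
    refine ⟨fun w => g w - f w < g u - f u, ?_, hcl, ?_⟩
    · by_contra hv'
      have a1 := hdeg v hv'
      have a2 := hg v
      simp only [if_true] at a2
      omega
    · by_contra hbig
      have c1 := hcl.cut_le
      rw [sum_toNat D f h2] at c1
      have c2 := iso n (fun w => g w - f w < g u - f u)
      have c3 := size_compl (fun w => g w - f w < g u - f u)
      let e : V n → ℤ := fun w => if g w - f w < g u - f u then 0 else 1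
      have e0 : ∀ w, 0 ≤ e w := fun w => by simp only [e]; split_ifs <;> simp
      have b2 : ∀ w, lap (fun x => f x + e x) w ≤ D w := by
        intro w
        rw [lap_add]
        by_cases hw : g w - f w < g u - f u
        · have : lap e w ≤ 0 := by
            apply Finset.sum_nonpos
            intro i _
            have := e0 (flp w i)
            simp only [e, if_pos hw] at this ⊢
            linarith
          linarith [h2 w]
        · have a0 : lap e w = deg (fun w => g w - f w < g u - f u) w := by
            rw [deg_cast]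
            apply Finset.sum_congr rfl
            intro i _
            simp only [e, if_neg hw]
            split_ifs <;> simp
          have a1 := hdeg w hw
          have a2 := hg w
          have a3 : (0 : ℤ) ≤ if w = v then 1 else 0 := by split_ifs <;> simp
          omega
      have b1 : ∀ w, 0 ≤ f w + e w := fun w => add_nonneg (h1 w) (e0 w)
      have b3 : Closed (fun w => ((D w : ℤ) - lap (fun x => f x + e x) w).toNat)
          (fun w => 0 < f w + e w) := by
        intro y hy
        have a1 : (deg (fun w => 0 < f w + e w) y : ℤ) ≤ -lap (fun x => f x + e x) y := by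
          rw [deg_cast, lap, ← Finset.sum_neg_distrib]
          apply Finset.sum_le_sum
          intro i _
          have := b1 (flp y i)
          split_ifs <;> omega
        simp only
        omega
      have d1 := b3.cut_le
      rw [sum_toNat D _ b2] at d1
      have d2 := iso n (fun w => 0 < f w + e w)
      have d3 := size_mono (A := fun w => 0 < f w + e w) (B := fun w => 0 < f w)
        (C := fun w => ¬ (g w - f w < g u - f u)) (by
          intro x hx
          by_cases hw : g x - f x < g u - f u
          · left; simpa [e, hw] using hx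
          · right; exact hw)
      have b4 : 4 * size (fun w => 0 < f w + e w) < 2 ^ n := by omega
      have := hmax _ ⟨fun x => f x + e x, ⟨b1, b2, b4⟩, rfl⟩
      rw [Finset.sum_add_distrib] at this
      have d4 := Finset.single_le_sum (f := e) (fun w _ => e0 w) (Finset.mem_univ u)
      have d5 : e u = 1 := by simp [e]
      linarith)
  rw [sum_toNat D f h2] at this
  omega

theorem upper (n : ℕ) : ∃ D : V (n + 1) → ℕ, ∑ x, D x = 2 ^ n ∧
    ∀ v, ∃ g : V (n + 1) → ℤ, ∀ w, 0 ≤ (D w : ℤ) - (if w = v then 1 else 0) - lap g w := by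
  refine ⟨fun x => if x 0 = true then 0 else 1, ?_, fun v => ?_⟩
  · rw [sum_succ]
    simp [cns]
  · by_cases hv : v 0 = true
    · refine ⟨fun x => if x 0 = true then 0 else 1, fun w => ?_⟩
      have e : lap (fun x : V (n + 1) => if x 0 = true then (0 : ℤ) else 1) w =
          if w 0 = true then -1 else 1 := by
        rw [lap, Fin.sum_univ_succ]
        have : ∀ i : Fin n, flp w i.succ 0 = w 0 := fun i => by
          simp [flp, Function.update_of_ne (Fin.succ_ne_zero i).symm]
        simp only [this, sub_self, Finset.sum_const_zero, add_zero]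
        cases h : w 0 <;> simp [flp, h]
      rw [e]
      by_cases hw : w = v
      · subst hw; simp [hv]
      · cases h : w 0 <;> simp [hw, h]
    · refine ⟨fun _ => 0, fun w => ?_⟩
      by_cases hw : w = v
      · subst hw; simp [hv, lap]
      · cases h : w 0 <;> simp [hw, lap, h]

end Pool.Agent.H376Z.Gon
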